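import Pool.Agent.H431.FS.Chain

/-! The canonical degree of the curves of Landen towers and the degree of the points of the Fermat surface. -/

set_option autoImplicit false

open Polynomial FF Pool.Agent.W603.LV

namespace Pool.Agent.H431.FS

variable {k K : Type*} [Field k] [Field K] [Algebra k K] [CharZero k] [IsAlgClosed k] [IsFF k K]
  {m J : ℕ} {κ : ℕ → K} {y0 y1 y2 : K}

/-- generators of the function field -/
def gens (J : ℕ) (κ : ℕ → K) (y0 y1 y2 : K) : Set K := {f | ∃ j ≤ J, f = κ j} ∪ {y0, y1, y2}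

/-- the point `P` is not a cusp -/
def Good (P : Place k K) (κ : ℕ → K) : Prop :=
  P.ord (κ 0) = 0 ∧ P.ord (1 + κ 0) = 0 ∧ P.ord (1 - κ 0) = 0

theorem Tw.ap (T : Tw k m J κ y0 y1 y2) (hm : 0 < m) (P : Place k K) (hP : Good P κ) :
    ∀ s ∈ gens J κ y0 y1 y2, Ap P (κ 0) s := by
  have hK : CharZero K := charZero_of_injective_algebraMap (algebraMap k K).injective
  have ht : Ge P 0 (κ 0) := Or.inr hP.1.ge
  have four : Ap P (κ 0) (4 : K) := by
    have := Ap.const (P := P) (t := κ 0) (4 : k)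
    rwa [map_ofNat] at this
  have hj : ∀ j ≤ J, Ap P (κ 0) (κ j) := by
    intro j
    induction j with
    | zero => intro _; exact Ap.self
    | succ j ih =>
      intro hj
      have a := T.ne (j := j) (by omega)
      have b := T.ne hj
      have g := ((T.fwd P j (by omega)).2.2 hP)
      have g' := ((T.fwd P (j + 1) hj).2.2 hP)
      refine Ap.root ht b.1 g'.1 (r := 2) (by norm_num) ?_
      have e : κ (j + 1) ^ 2 = 4 * κ j * ((1 + κ j) ^ 2)⁻¹ := by
        rw [← T.step j (by omega)]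
        field_simp [a.2.1]
      rw [e]
      have h1 := ih (by omega)
      refine (four.mul ht h1).mul ht (Ap.inv ht (pow_ne_zero _ a.2.1) ?_ ((Ap.one.add h1).pow ht 2))
      rw [P.ord_pow, g.2.1, mul_zero]
  have hJ := T.ne (le_refl J)
  have gJ := (T.fwd P J le_rfl).2.2 hP
  obtain ⟨n0, n1, n2⟩ := T.yne hm
  obtain ⟨e0, e1, e2⟩ := T.yord hm P
  rw [gJ.1, gJ.2.1] at e0
  rw [gJ.2.1, gJ.2.2, hP.1] at e1
  rw [gJ.2.1, gJ.2.2, hP.2.1, hP.2.2] at e2
  have hm0 : (m : ℤ) ≠ 0 := by exact_mod_cast hm.ne'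
  have o0 : P.ord y0 = 0 := by
    have : (m : ℤ) * P.ord y0 = 0 := by linarith
    exact (mul_eq_zero.1 this).resolve_left hm0
  have o1 : P.ord y1 = 0 := by
    have : (m : ℤ) * P.ord y1 = 0 := by linarith
    exact (mul_eq_zero.1 this).resolve_left hm0
  have o2 : P.ord y2 = 0 := by
    have : (m : ℤ) * P.ord y2 = 0 := by linarith
    exact (mul_eq_zero.1 this).resolve_left hm0
  have aJ := hj J le_rfl
  have inv : Ap P (κ 0) ((1 + κ J) ^ 2)⁻¹ := by
    refine Ap.inv ht (pow_ne_zero _ hJ.2.1) ?_ ((Ap.one.add aJ).pow ht 2)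
    rw [P.ord_pow, gJ.2.1, mul_zero]
  rintro s (⟨j, hj', rfl⟩ | hs)
  · exact hj j hj'
  · simp only [Set.mem_insert_iff, Set.mem_singleton_iff] at hs
    rcases hs with rfl | rfl | rfl
    · refine Ap.root ht n0 o0 hm ?_
      have e : s ^ m = 4 * κ J * ((1 + κ J) ^ 2)⁻¹ := by
        rw [← T.h0]; field_simp [hJ.2.1]
      rw [e]
      exact (four.mul ht aJ).mul ht inv
    · refine Ap.root ht n1 o1 hm ?_
      have e : s ^ m = (1 - κ J) ^ 2 * κ 0 ^ 2 * ((1 + κ J) ^ 2)⁻¹ := by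
        rw [← T.h1]; field_simp [hJ.2.1]
      rw [e]
      exact (((Ap.one.sub ht aJ).pow ht 2).mul ht (Ap.self.pow ht 2)).mul ht inv
    · refine Ap.root ht n2 o2 hm ?_
      have e : s ^ m = (1 - κ J) ^ 2 * (1 - κ 0 ^ 2) * ((1 + κ J) ^ 2)⁻¹ := by
        rw [← T.h2]; field_simp [hJ.2.1]
      rw [e]
      exact (((Ap.one.sub ht aJ).pow ht 2).mul ht (Ap.one.sub ht (Ap.self.pow ht 2))).mul ht inv

omit [IsAlgClosed k] in
/-- a vector field -/
theorem exists_D {t : K} (ht : Transcendental k t) : ∃ D : Derivation k K K, D ≠ 0 ∧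
    D t = t * ((1 + t) * (1 - t)) := by
  obtain ⟨D, hD⟩ := exists_der (k := k) (K := K)
  have h1 := der_ne_zero hD ht
  obtain ⟨n0, n1, n2⟩ := ne_of_tr ht
  have h2 : t * ((1 + t) * (1 - t)) / D t ≠ 0 :=
    div_ne_zero (mul_ne_zero n0 (mul_ne_zero n1 n2)) h1
  refine ⟨(t * ((1 + t) * (1 - t)) / D t) • D, ?_, ?_⟩
  · intro h
    have h3 := congrArg (fun E : Derivation k K K => E t) h
    simp only [Derivation.coe_smul, Pi.smul_apply, smul_eq_mul, Derivation.coe_zero,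
      Pi.zero_apply] at h3
    exact mul_ne_zero h2 h1 h3
  · rw [Derivation.coe_smul, Pi.smul_apply, smul_eq_mul, div_mul_cancel₀ _ h1]

open scoped Classical in
theorem Tw.vo_eq (T : Tw k m J κ y0 y1 y2) (hm : 0 < m)
    (hgen : IntermediateField.adjoin k (gens J κ y0 y1 y2) = ⊤) {D : Derivation k K K}
    (hD : D ≠ 0) (hDt : D (κ 0) = κ 0 * ((1 + κ 0) * (1 - κ 0))) (P : Place k K) :
    vo P D = (if Good P κ then 0 else 1) - 2 * max (-P.ord (κ 0)) 0 := by
  obtain ⟨n0, n1, n2⟩ := T.ne (Nat.zero_le J)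
  have ho : P.ord (D (κ 0)) = P.ord (κ 0) + (P.ord (1 + κ 0) + P.ord (1 - κ 0)) := by
    rw [hDt, P.ord_mul n0 (mul_ne_zero n1 n2), P.ord_mul n1 n2]
  rcases tri P n0 n1 n2 with ⟨h1, h2, h3⟩ | ⟨h1, h2, h3⟩ | ⟨h1, h2, h3, h4⟩
  · rw [if_neg fun h => by have := h.1; omega]
    have := (ord_der P hD (f := κ 0) (by omega)).2
    omega
  · rw [if_neg fun h => by have := h.1; omega]
    have := (ord_der P hD (f := κ 0) (by omega)).2
    omega
  · by_cases hg : Good P κ
    · rw [if_pos hg, h1]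
      obtain ⟨c, hc0, hc⟩ := exists_val n0 h1
      have hc1 : κ 0 - algebraMap k K c ≠ 0 := by
        intro h0
        apply T.tr
        rw [sub_eq_zero.1 h0]
        exact isAlgebraic_algebraMap c
      have hc2 : 0 < P.ord (κ 0 - algebraMap k K c) := hc.resolve_left hc1
      have h5 := unram hc2 _ hgen (T.ap hm P hg)
      have h6 := (ord_der P hD (f := κ 0 - algebraMap k K c) (by omega)).2
      rw [map_sub, Derivation.map_algebraMap, sub_zero, h5] at h6
      have h7 := hg.2.1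
      have h8 := hg.2.2
      simp
      omega
    · rw [if_neg hg, h1]
      have h5 : P.ord (1 + κ 0) ≠ 0 ∨ P.ord (1 - κ 0) ≠ 0 := by
        by_contra hcon
        push Not at hcon
        exact hg ⟨h1, hcon.1, hcon.2⟩
      rcases h5 with h5 | h5
      · have h6 := (ord_der P hD (f := 1 + κ 0) h5).2
        rw [map_add, Derivation.map_one_eq_zero, zero_add] at h6
        simp
        omega
      · have h6 := (ord_der P hD (f := 1 - κ 0) h5).2
        rw [map_sub, Derivation.map_one_eq_zero, zero_sub, P.ord_neg] at h6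
        simp
        omega

/-- The canonical degree of the curve of the tower. -/
theorem Tw.can (T : Tw k m J κ y0 y1 y2) (hm : 5 ≤ m) (hJ : 3 ≤ J)
    (hgen : IntermediateField.adjoin k (gens J κ y0 y1 y2) = ⊤) :
    canDeg k K ≤ 2 * hgt k (κ 0) ∧ 6 * hgt k (κ 0) ≤ 5 * canDeg k K := by
  classical
  obtain ⟨D, hD, hDt⟩ := exists_D T.tr
  obtain ⟨T1, hT1⟩ := exists_supp (k := k) (Finset.univ : Finset (Fin 3)) ![κ 0, 1 + κ 0, 1 - κ 0]
  set S : Finset (Place k K) := T1 ∪ (vo_finite hD).toFinset with hS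
  have s0 : ∀ P : Place k K, P.ord (κ 0) ≠ 0 → P ∈ S := fun P hP =>
    Finset.mem_union_left _ (hT1 0 (Finset.mem_univ _) P hP)
  have s1 : ∀ P : Place k K, P.ord (1 + κ 0) ≠ 0 → P ∈ S := fun P hP =>
    Finset.mem_union_left _ (hT1 1 (Finset.mem_univ _) P hP)
  have s2 : ∀ P : Place k K, P.ord (1 - κ 0) ≠ 0 → P ∈ S := fun P hP =>
    Finset.mem_union_left _ (hT1 2 (Finset.mem_univ _) P hP)
  have s3 : ∀ P : Place k K, vo P D ≠ 0 → P ∈ S := fun P hP =>
    Finset.mem_union_right _ (by simpa using hP)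
  have hc := canDeg_finset hD S s3
  have hv := fun P => T.vo_eq (by omega) hgen hD hDt P
  rw [Finset.sum_congr rfl fun P _ => hv P, Finset.sum_sub_distrib, ← Finset.mul_sum,
    ← hgt_finset (κ 0) S s0] at hc
  have hb0 : 0 ≤ ∑ P ∈ S, (if Good P κ then (0 : ℤ) else 1) :=
    Finset.sum_nonneg fun P _ => by split_ifs <;> norm_num
  -- heights
  have z0 : hgt k (κ 0) = ∑ P ∈ S, max (P.ord (κ 0)) 0 := by
    rw [← hgt_inv, hgt_finset (κ 0)⁻¹ S (fun P hP => s0 P (by rw [P.ord_inv] at hP; omega))]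
    exact Finset.sum_congr rfl fun P _ => by rw [P.ord_inv, neg_neg]
  have z1 : hgt k (κ 0) = ∑ P ∈ S, max (P.ord (1 + κ 0)) 0 := by
    rw [← hgt_one_add T.tr, ← hgt_inv,
      hgt_finset (1 + κ 0)⁻¹ S (fun P hP => s1 P (by rw [P.ord_inv] at hP; omega))]
    exact Finset.sum_congr rfl fun P _ => by rw [P.ord_inv, neg_neg]
  have z2 : hgt k (κ 0) = ∑ P ∈ S, max (P.ord (1 - κ 0)) 0 := by
    rw [← hgt_one_sub T.tr, ← hgt_inv,
      hgt_finset (1 - κ 0)⁻¹ S (fun P hP => s2 P (by rw [P.ord_inv] at hP; omega))]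
    exact Finset.sum_congr rfl fun P _ => by rw [P.ord_inv, neg_neg]
  have z3 : hgt k (κ 0) = ∑ P ∈ S, max (-P.ord (κ 0)) 0 := hgt_finset (κ 0) S s0
  have h8 : (8 : ℤ) ≤ 2 ^ J := by
    calc (8 : ℤ) = 2 ^ 3 := by norm_num
      _ ≤ 2 ^ J := pow_le_pow_right₀ (by norm_num) hJ
  have key : 5 * ∑ P ∈ S, (if Good P κ then (0 : ℤ) else 1) ≤ 4 * hgt k (κ 0) := by
    have e : 4 * hgt k (κ 0) = ∑ P ∈ S, (max (P.ord (κ 0)) 0 + max (-P.ord (κ 0)) 0 +
        (max (P.ord (1 + κ 0)) 0 + max (P.ord (1 - κ 0)) 0)) := by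
      rw [Finset.sum_add_distrib, Finset.sum_add_distrib, Finset.sum_add_distrib, ← z0, ← z1, ← z2,
        ← z3]
      ring
    rw [e, Finset.mul_sum]
    refine Finset.sum_le_sum fun P _ => ?_
    have p1 := le_max_right (P.ord (κ 0)) 0
    have p2 := le_max_right (-P.ord (κ 0)) 0
    have p3 := le_max_right (P.ord (1 + κ 0)) 0
    have p4 := le_max_right (P.ord (1 - κ 0)) 0
    split_ifs with hg
    · linarith
    · obtain ⟨n0, n1, n2⟩ := T.ne (Nat.zero_le J)
      obtain ⟨f1, f2, -⟩ := T.fwd P J le_rfl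
      rcases tri P n0 n1 n2 with ⟨h1, h2, h3⟩ | ⟨h1, h2, h3⟩ | ⟨h1, h2, h3, h4⟩
      · obtain ⟨g1, g2⟩ := f1 h1
        have : (8 : ℤ) ≤ P.ord (κ 0) := by rw [← g2]; nlinarith
        have := le_max_left (P.ord (κ 0)) 0
        linarith
      · obtain ⟨g1, g2⟩ := f2 h1 (by omega)
        have : (8 : ℤ) ≤ -P.ord (κ 0) := by rw [← g2]; nlinarith
        have := le_max_left (-P.ord (κ 0)) 0
        linarith
      · have h5 : 0 < P.ord (1 - κ 0) + P.ord (1 + κ 0) := by
          by_contra hcon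
          exact hg ⟨h1, by omega, by omega⟩
        have h6 := Int.le_of_dvd h5 (T.dvd (by omega) P h1)
        have h7 : (5 : ℤ) ≤ m := by exact_mod_cast hm
        have := le_max_left (P.ord (1 + κ 0)) 0
        have := le_max_left (P.ord (1 - κ 0)) 0
        linarith
  constructor <;> linarith

/-- the degree of the tower is large -/
theorem Tw.large (T : Tw k m J κ y0 y1 y2) (hJ : 1 ≤ J) : 2 ^ J ≤ hgt k (κ 0) := by
  classical
  obtain ⟨S, hS, hS2⟩ := poles (k := k) T.tr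
  have h2 := IsFF.finite T.tr
  have h3 : 0 < Module.finrank (IntermediateField.adjoin k {κ 0}) K := Module.finrank_pos
  rw [← hS2] at h3
  obtain ⟨w, hw, -⟩ := Finset.exists_ne_zero_of_sum_ne_zero h3.ne'
  have h4 := (hS w).1 hw
  obtain ⟨-, f2, -⟩ := T.fwd w J le_rfl
  obtain ⟨g1, g2⟩ := f2 h4 hJ
  obtain ⟨T1, hT1⟩ := exists_supp (k := k) (Finset.univ : Finset (Fin 1)) ![κ 0]
  have h1 : ∀ P : Place k K, P.ord (κ 0) ≠ 0 → P ∈ T1 := fun P => hT1 0 (Finset.mem_univ _) P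
  rw [hgt_finset _ T1 h1]
  have h5 := Finset.single_le_sum (f := fun P : Place k K => max (-P.ord (κ 0)) 0)
    (fun P _ => le_max_right _ _) (h1 w h4.ne)
  refine le_trans ?_ h5
  refine le_trans ?_ (le_max_left _ _)
  rw [← g2]
  have : (0 : ℤ) < 2 ^ J := by positivity
  nlinarith

/-- the degree of the point -/
theorem Tw.deg (T : Tw k m J κ y0 y1 y2) (hm : 0 < m) :
    m * ∑ᶠ P : Place k K, max (max (-P.ord y0) (-P.ord y1)) (max (-P.ord y2) 0) =
      4 * hgt k (κ 0) := by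
  classical
  have hm0 : (m : ℤ) ≠ 0 := by exact_mod_cast hm.ne'
  have hJt := T.trj J le_rfl
  obtain ⟨T1, hT1⟩ := exists_supp (k := k) (Finset.univ : Finset (Fin 5))
    ![y0, y1, y2, 1 + κ J, κ 0]
  have s0 : ∀ P : Place k K, P.ord y0 ≠ 0 → P ∈ T1 := fun P hP => hT1 0 (Finset.mem_univ _) P hP
  have s1 : ∀ P : Place k K, P.ord y1 ≠ 0 → P ∈ T1 := fun P hP => hT1 1 (Finset.mem_univ _) P hP
  have s2 : ∀ P : Place k K, P.ord y2 ≠ 0 → P ∈ T1 := fun P hP => hT1 2 (Finset.mem_univ _) P hP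
  have s3 : ∀ P : Place k K, P.ord (1 + κ J) ≠ 0 → P ∈ T1 := fun P hP =>
    hT1 3 (Finset.mem_univ _) P hP
  have s4 : ∀ P : Place k K, P.ord (κ 0) ≠ 0 → P ∈ T1 := fun P hP =>
    hT1 4 (Finset.mem_univ _) P hP
  rw [finsum_eq_sum_of_support_subset (s := T1)]
  · rw [Finset.mul_sum, Finset.sum_congr rfl fun P _ => T.loc hm P, Finset.sum_add_distrib,
      ← Finset.mul_sum, ← Finset.mul_sum, ← hgt_finset (κ 0) T1 s4]
    have z1 : hgt k (κ 0) = ∑ P ∈ T1, max (P.ord (1 + κ J)) 0 := by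
      rw [← T.eqh J le_rfl, ← hgt_one_add hJt, ← hgt_inv,
        hgt_finset (1 + κ J)⁻¹ T1 (fun P hP => s3 P (by rw [P.ord_inv] at hP; omega))]
      exact Finset.sum_congr rfl fun P _ => by rw [P.ord_inv, neg_neg]
    rw [← z1]; ring
  · intro P hP
    by_contra hcon
    apply hP
    have a0 : P.ord y0 = 0 := by by_contra h; exact hcon (s0 P h)
    have a1 : P.ord y1 = 0 := by by_contra h; exact hcon (s1 P h)
    have a2 : P.ord y2 = 0 := by by_contra h; exact hcon (s2 P h)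
    simp [a0, a1, a2]

end Pool.Agent.H431.FS
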