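import Pool.Agent.H431.FS.Pl

/-! Towers of ascending Landen transformations in a function field, and the points on the Fermat surface
that belong to them: orders at the places and degrees. -/

set_option autoImplicit false

open Polynomial FF Pool.Agent.W603.LV

namespace Pool.Agent.H431.FS

/-- `κ j`, `j ≤ J`, is a tower of Landen transformations, and `(y0, y1, y2)` is a point of the Fermat
surface of degree `m` which belongs to the pair `(κ (J + 1) ^ 2, κ 0 ^ 2)`. -/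
structure Tw (k : Type*) {K : Type*} [Field k] [Field K] [Algebra k K] (m J : ℕ) (κ : ℕ → K)
    (y0 y1 y2 : K) : Prop where
  tr : Transcendental k (κ 0)
  step : ∀ j < J, κ (j + 1) ^ 2 * (1 + κ j) ^ 2 = 4 * κ j
  h0 : y0 ^ m * (1 + κ J) ^ 2 = 4 * κ J
  h1 : y1 ^ m * (1 + κ J) ^ 2 = (1 - κ J) ^ 2 * κ 0 ^ 2
  h2 : y2 ^ m * (1 + κ J) ^ 2 = (1 - κ J) ^ 2 * (1 - κ 0 ^ 2)

variable {k K : Type*} [Field k] [Field K] [Algebra k K]

theorem step_tr [CharZero k] [IsAlgClosed k] {a b : K} (h : b ^ 2 * (1 + a) ^ 2 = 4 * a)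
    (ha : Transcendental k a) : Transcendental k b := by
  intro hb
  have h2 := IsAlgClosed.degree_eq_one_of_irreducible k (minpoly.irreducible hb.isIntegral)
  obtain ⟨c, hc⟩ := minpoly.mem_range_of_degree_eq_one k b h2
  apply ha
  refine ⟨C (c ^ 2) * (1 + X) ^ 2 - 4 * X, ?_, ?_⟩
  · intro h0
    have h3 := congrArg (eval 0) h0
    have h4 := congrArg (eval 1) h0
    simp at h3
    subst h3
    simp at h4
  · simp only [map_sub, map_mul, map_pow, map_add, map_one, aeval_X, aeval_C, map_ofNat]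
    rw [hc, h, sub_self]

section
variable [CharZero k] [IsAlgClosed k] {m J : ℕ} {κ : ℕ → K} {y0 y1 y2 : K}

theorem Tw.trj (T : Tw k m J κ y0 y1 y2) : ∀ j ≤ J, Transcendental k (κ j) := by
  intro j
  induction j with
  | zero => intro _; exact T.tr
  | succ j ih => intro hj; exact step_tr (T.step j (by omega)) (ih (by omega))

end


theorem ne_of_tr {f : K} (hf : Transcendental k f) : f ≠ 0 ∧ 1 + f ≠ 0 ∧ 1 - f ≠ 0 := by
  refine ⟨?_, ?_, ?_⟩
  · rintro rfl; exact hf isAlgebraic_zero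
  · intro h
    apply hf
    have : f = algebraMap k K (-1) := by rw [map_neg, map_one]; linear_combination h
    rw [this]; exact isAlgebraic_algebraMap _
  · intro h
    apply hf
    have : f = algebraMap k K 1 := by rw [map_one]; linear_combination -h
    rw [this]; exact isAlgebraic_algebraMap _

theorem ord_two [CharZero k] (P : Place k K) : P.ord 2 = 0 := by
  have := P.ord_const (c := (2 : k)) two_ne_zero
  rwa [map_ofNat] at this

theorem ord_four [CharZero k] (P : Place k K) : P.ord 4 = 0 := by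
  have := P.ord_const (c := (4 : k)) (by norm_num)
  rwa [map_ofNat] at this

/-- zeros, poles and units -/
theorem tri [CharZero k] (P : Place k K) {f : K} (h0 : f ≠ 0) (h1 : 1 + f ≠ 0) (h2 : 1 - f ≠ 0) :
    (0 < P.ord f ∧ P.ord (1 + f) = 0 ∧ P.ord (1 - f) = 0) ∨
    (P.ord f < 0 ∧ P.ord (1 + f) = P.ord f ∧ P.ord (1 - f) = P.ord f) ∨
    (P.ord f = 0 ∧ 0 ≤ P.ord (1 + f) ∧ 0 ≤ P.ord (1 - f) ∧
      (P.ord (1 + f) = 0 ∨ P.ord (1 - f) = 0)) := by
  have ho := P.ord_one
  have hK : CharZero K := charZero_of_injective_algebraMap (algebraMap k K).injective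
  rcases lt_trichotomy (P.ord f) 0 with h | h | h
  · right; left
    refine ⟨h, ?_, ?_⟩
    · have := (P.ord_add_eq (f := f) (g := 1) h0 one_ne_zero (by omega)).2
      rw [add_comm]; exact this
    · have := (P.ord_add_eq (f := -f) (g := 1) (neg_ne_zero.2 h0) one_ne_zero
        (by rw [P.ord_neg]; omega)).2
      rw [P.ord_neg] at this
      rw [← this]; congr 1; ring
  · right; right
    have h3 : 0 ≤ P.ord (1 + f) := by
      have := P.ord_add (f := 1) (g := f) one_ne_zero h0 h1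
      rw [ho, h, min_self] at this; exact this
    have h4 : 0 ≤ P.ord (1 - f) := by
      have := P.ord_sub (f := 1) (g := f) one_ne_zero h0 h2
      rw [ho, h, min_self] at this; exact this
    refine ⟨h, h3, h4, ?_⟩
    by_contra hcon
    push Not at hcon
    have h5 := P.ord_add h1 h2 (by
      rw [show (1 + f) + (1 - f) = 2 by ring]; exact two_ne_zero)
    rw [show (1 + f) + (1 - f) = 2 by ring, ord_two] at h5
    have : 0 < min (P.ord (1 + f)) (P.ord (1 - f)) :=
      lt_min (lt_of_le_of_ne h3 (Ne.symm hcon.1)) (lt_of_le_of_ne h4 (Ne.symm hcon.2))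
    omega
  · left
    refine ⟨h, ?_, ?_⟩
    · rw [(P.ord_add_eq (f := 1) (g := f) one_ne_zero h0 (by omega)).2, ho]
    · have := (P.ord_add_eq (f := 1) (g := -f) one_ne_zero (neg_ne_zero.2 h0)
        (by rw [P.ord_neg]; omega)).2
      rw [ho] at this
      rw [sub_eq_add_neg]; exact this

/-- the orders in one step -/
theorem step_ord [CharZero k] (P : Place k K) {a b : K} (h : b ^ 2 * (1 + a) ^ 2 = 4 * a)
    (ha : a ≠ 0 ∧ 1 + a ≠ 0 ∧ 1 - a ≠ 0) (hb : b ≠ 0 ∧ 1 + b ≠ 0 ∧ 1 - b ≠ 0) :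
    2 * P.ord b + 2 * P.ord (1 + a) = P.ord a ∧
    P.ord (1 - b) + P.ord (1 + b) + 2 * P.ord (1 + a) = 2 * P.ord (1 - a) := by
  have hK : CharZero K := charZero_of_injective_algebraMap (algebraMap k K).injective
  constructor
  · have h1 := congrArg P.ord h
    rw [P.ord_mul (pow_ne_zero _ hb.1) (pow_ne_zero _ ha.2.1), P.ord_pow, P.ord_pow,
      P.ord_mul (by norm_num : (4 : K) ≠ 0) ha.1, ord_four] at h1
    push_cast at h1
    omega
  · have h2 : (1 - b) * (1 + b) * (1 + a) ^ 2 = (1 - a) ^ 2 := by linear_combination -h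
    have h1 := congrArg P.ord h2
    rw [P.ord_mul (mul_ne_zero hb.2.2 hb.2.1) (pow_ne_zero _ ha.2.1), P.ord_mul hb.2.2 hb.2.1,
      P.ord_pow, P.ord_pow] at h1
    push_cast at h1
    omega

section
variable [CharZero k] [IsAlgClosed k] {m J : ℕ} {κ : ℕ → K} {y0 y1 y2 : K}

theorem Tw.ne (T : Tw k m J κ y0 y1 y2) {j : ℕ} (hj : j ≤ J) :
    κ j ≠ 0 ∧ 1 + κ j ≠ 0 ∧ 1 - κ j ≠ 0 := ne_of_tr (T.trj j hj)

theorem Tw.fwd (T : Tw k m J κ y0 y1 y2) (P : Place k K) : ∀ j ≤ J,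
    (0 < P.ord (κ 0) → 0 < P.ord (κ j) ∧ 2 ^ j * P.ord (κ j) = P.ord (κ 0)) ∧
    (P.ord (κ 0) < 0 → 1 ≤ j → 0 < P.ord (κ j) ∧ 2 ^ j * P.ord (κ j) = - P.ord (κ 0)) ∧
    (P.ord (κ 0) = 0 ∧ P.ord (1 + κ 0) = 0 ∧ P.ord (1 - κ 0) = 0 →
      P.ord (κ j) = 0 ∧ P.ord (1 + κ j) = 0 ∧ P.ord (1 - κ j) = 0) := by
  intro j
  induction j with
  | zero =>
    intro _
    refine ⟨fun h => ⟨h, by simp⟩, fun _ h => by omega, fun h => h⟩
  | succ j ih =>
    intro hj
    obtain ⟨i1, i2, i3⟩ := ih (by omega)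
    have ha := T.ne (j := j) (by omega)
    have hb := T.ne hj
    obtain ⟨s1, s2⟩ := step_ord P (T.step j (by omega)) ha hb
    have ta := tri P ha.1 ha.2.1 ha.2.2
    have tb := tri P hb.1 hb.2.1 hb.2.2
    refine ⟨fun h => ?_, fun h _ => ?_, fun h => ?_⟩
    · obtain ⟨h1, h2⟩ := i1 h
      refine ⟨by omega, ?_⟩
      rw [← h2, pow_succ]
      have : P.ord (κ j) = 2 * P.ord (κ (j + 1)) := by omega
      rw [this]; ring
    · rcases Nat.eq_zero_or_pos j with rfl | hj0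
      · refine ⟨by omega, ?_⟩
        have : - P.ord (κ 0) = 2 * P.ord (κ (0 + 1)) := by omega
        rw [this]; ring
      · obtain ⟨h1, h2⟩ := i2 h hj0
        refine ⟨by omega, ?_⟩
        rw [← h2, pow_succ]
        have : P.ord (κ j) = 2 * P.ord (κ (j + 1)) := by omega
        rw [this]; ring
    · obtain ⟨h1, h2, h3⟩ := i3 h
      omega

theorem Tw.yne (T : Tw k m J κ y0 y1 y2) (hm : 0 < m) : y0 ≠ 0 ∧ y1 ≠ 0 ∧ y2 ≠ 0 := by
  have hJ := T.ne (le_refl J)
  have h0 := T.ne (Nat.zero_le J)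
  have hK : CharZero K := charZero_of_injective_algebraMap (algebraMap k K).injective
  refine ⟨?_, ?_, ?_⟩
  · rintro rfl
    have := T.h0
    rw [zero_pow hm.ne', zero_mul] at this
    exact mul_ne_zero (by norm_num : (4 : K) ≠ 0) hJ.1 this.symm
  · rintro rfl
    have := T.h1
    rw [zero_pow hm.ne', zero_mul] at this
    exact mul_ne_zero (pow_ne_zero _ hJ.2.2) (pow_ne_zero _ h0.1) this.symm
  · rintro rfl
    have := T.h2
    rw [zero_pow hm.ne', zero_mul] at this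
    have h3 : (1 : K) - κ 0 ^ 2 = (1 - κ 0) * (1 + κ 0) := by ring
    rw [h3] at this
    exact mul_ne_zero (pow_ne_zero _ hJ.2.2) (mul_ne_zero h0.2.2 h0.2.1) this.symm

/-- the orders of the coordinates -/
theorem Tw.yord (T : Tw k m J κ y0 y1 y2) (hm : 0 < m) (P : Place k K) :
    m * P.ord y0 + 2 * P.ord (1 + κ J) = P.ord (κ J) ∧
    m * P.ord y1 + 2 * P.ord (1 + κ J) = 2 * P.ord (1 - κ J) + 2 * P.ord (κ 0) ∧
    m * P.ord y2 + 2 * P.ord (1 + κ J) =
      2 * P.ord (1 - κ J) + P.ord (1 - κ 0) + P.ord (1 + κ 0) := by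
  have hJ := T.ne (le_refl J)
  have h0 := T.ne (Nat.zero_le J)
  obtain ⟨n0, n1, n2⟩ := T.yne hm
  have hK : CharZero K := charZero_of_injective_algebraMap (algebraMap k K).injective
  refine ⟨?_, ?_, ?_⟩
  · have h1 := congrArg P.ord T.h0
    rw [P.ord_mul (pow_ne_zero _ n0) (pow_ne_zero _ hJ.2.1), P.ord_pow, P.ord_pow,
      P.ord_mul (by norm_num : (4 : K) ≠ 0) hJ.1, ord_four] at h1
    push_cast at h1
    linarith
  · have h1 := congrArg P.ord T.h1
    rw [P.ord_mul (pow_ne_zero _ n1) (pow_ne_zero _ hJ.2.1), P.ord_pow, P.ord_pow,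
      P.ord_mul (pow_ne_zero _ hJ.2.2) (pow_ne_zero _ h0.1), P.ord_pow, P.ord_pow] at h1
    push_cast at h1
    linarith
  · have h3 : (1 : K) - κ 0 ^ 2 = (1 - κ 0) * (1 + κ 0) := by ring
    have h1 := congrArg P.ord T.h2
    rw [h3, P.ord_mul (pow_ne_zero _ n2) (pow_ne_zero _ hJ.2.1), P.ord_pow, P.ord_pow,
      P.ord_mul (pow_ne_zero _ hJ.2.2) (mul_ne_zero h0.2.2 h0.2.1), P.ord_pow,
      P.ord_mul h0.2.2 h0.2.1] at h1
    push_cast at h1
    linarith

/-- the local height of the point: there is no cancellation -/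
theorem Tw.loc (T : Tw k m J κ y0 y1 y2) (hm : 0 < m) (P : Place k K) :
    m * max (max (-P.ord y0) (-P.ord y1)) (max (-P.ord y2) 0) =
      2 * max (P.ord (1 + κ J)) 0 + 2 * max (-P.ord (κ 0)) 0 := by
  have hJ := T.ne (le_refl J)
  have h0 := T.ne (Nat.zero_le J)
  obtain ⟨e0, e1, e2⟩ := T.yord hm P
  have tJ := tri P hJ.1 hJ.2.1 hJ.2.2
  have t0 := tri P h0.1 h0.2.1 h0.2.2
  obtain ⟨f1, f2, f3⟩ := T.fwd P J le_rfl
  have hm' : (0 : ℤ) ≤ m := by positivity
  rw [mul_max_of_nonneg _ _ hm', mul_max_of_nonneg _ _ hm', mul_max_of_nonneg _ _ hm', mul_neg,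
    mul_neg, mul_neg, mul_zero]
  generalize (m : ℤ) * P.ord y0 = Y0 at *
  generalize (m : ℤ) * P.ord y1 = Y1 at *
  generalize (m : ℤ) * P.ord y2 = Y2 at *
  rcases Nat.eq_zero_or_pos J with rfl | hJ0
  · omega
  · omega

/-- divisibility over the points `± 1` -/
theorem Tw.dvd (T : Tw k m J κ y0 y1 y2) (hm : 0 < m) (P : Place k K) (h : P.ord (κ 0) = 0) :
    (m : ℤ) ∣ P.ord (1 - κ 0) + P.ord (1 + κ 0) := by
  obtain ⟨e0, e1, e2⟩ := T.yord hm P
  refine ⟨P.ord y2 - P.ord y1, ?_⟩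
  rw [mul_sub]
  omega

end

section
variable [CharZero k] [IsAlgClosed k] [IsFF k K] {m J : ℕ} {κ : ℕ → K} {y0 y1 y2 : K}

omit [IsAlgClosed k] [IsFF k K] in
/-- the degree of `1 + f` -/
theorem hgt_one_add {f : K} (hf : Transcendental k f) : hgt k (1 + f) = hgt k f := by
  unfold hgt
  congr 1
  funext P
  obtain ⟨h0, h1, h2⟩ := ne_of_tr hf
  have := tri P h0 h1 h2
  omega

omit [IsAlgClosed k] [IsFF k K] in
theorem hgt_one_sub {f : K} (hf : Transcendental k f) : hgt k (1 - f) = hgt k f := by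
  unfold hgt
  congr 1
  funext P
  obtain ⟨h0, h1, h2⟩ := ne_of_tr hf
  have := tri P h0 h1 h2
  omega

/-- number of zeros -/
theorem zeros_eq (f : K) : ∑ᶠ P : Place k K, max (P.ord f) 0 = hgt k f := by
  rw [← hgt_inv]
  unfold hgt
  congr 1
  funext P
  rw [P.ord_inv, neg_neg]

theorem step_hgt {a b : K} (h : b ^ 2 * (1 + a) ^ 2 = 4 * a) (ha : Transcendental k a) :
    hgt k b = hgt k a := by
  have hb := step_tr h ha
  rw [← hgt_one_add ha, ← zeros_eq (1 + a)]
  unfold hgt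
  congr 1
  funext P
  have na := ne_of_tr ha
  have nb := ne_of_tr hb
  obtain ⟨s1, s2⟩ := step_ord P h na nb
  have := tri P na.1 na.2.1 na.2.2
  omega

theorem Tw.eqh (T : Tw k m J κ y0 y1 y2) : ∀ j ≤ J, hgt k (κ j) = hgt k (κ 0) := by
  intro j
  induction j with
  | zero => intro _; rfl
  | succ j ih =>
    intro hj
    rw [step_hgt (T.step j (by omega)) (T.trj j (by omega)), ih (by omega)]

end

end Pool.Agent.H431.FS
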