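import Pool.Graph.R_seed8.TH145.GE.CurveLin
import Pool.Graph.R_seed8.TH145.GC.Main

/-! Smooth surfaces in the projective space, curves on them, genus and canonical degree, the number `Λ`. -/

set_option autoImplicit false

open MvPolynomial FF Filter Pool.Agent.W603.LV Pool.Agent.W603.PV

namespace Pool.Agent.H431.FS

/-- A smooth surface of degree `d` in the projective space `ℙ³` over `k`, given by its equation: a form of
degree `d` whose partial derivatives have no common zero on the surface. -/
structure Surface (k : Type) [Field k] where
  /-- the degree -/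
  d : ℕ
  /-- the equation -/
  F : MvPolynomial (Fin 4) k
  hom : F.IsHomogeneous d
  smooth : ∀ p : Fin 4 → k, p ≠ 0 → eval p F = 0 → ∃ i, eval p (pderiv i F) ≠ 0

/-- A curve `C` (reduced, irreducible, closed) on the surface `X`, given by its function field `L` (a
function field of one variable over `k`) and its generic point `x`, in homogeneous coordinates in `L`:
the ratios of the coordinates generate `L`. The smooth projective curve with the function field `L` is the
normalisation of `C`. -/
structure Curve {k : Type} [Field k] (X : Surface k) where
  /-- the function field -/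
  L : Type
  [isField : Field L]
  [isAlgebra : Algebra k L]
  [isFF : IsFF k L]
  /-- the generic point -/
  x : Fin 4 → L
  ne_zero : x ≠ 0
  on_surface : aeval x X.F = 0
  gen : IntermediateField.adjoin k {f : L | ∃ i j, x j ≠ 0 ∧ f = x i / x j} = ⊤

attribute [instance] Curve.isField Curve.isAlgebra Curve.isFF

namespace Curve

variable {k : Type} [Field k] {X : Surface k}

/-- The degree of the curve: minus the sum, over the points `P` of the normalisation (the discrete
valuations of `L` which are trivial on `k`), of the minimum of the orders of the nonzero coordinates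
of `x`. -/
noncomputable def degree (C : Curve X) : ℤ :=
  - ∑ᶠ P : Place k C.L, ⨅ i : {i // C.x i ≠ 0}, P.ord (C.x i)

/-- The geometric genus `g`: `2 g - 2` is the canonical degree `canDeg k L` of the normalisation, the
degree of the divisor of a differential, which is minus the sum of the orders of a vector field. -/
noncomputable def genus (C : Curve X) : ℝ := canDeg k C.L / 2 + 1

/-- The canonical degree `K_X . C = (d - 4) deg C`. -/
noncomputable def canonicalDegree (C : Curve X) : ℝ := (X.d - 4) * C.degree

end Curve

/-- `Λ_X`: the supremum, over the sequences of curves `C n` on `X` of genus `g n > 1` with `g n → ∞`, of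
the upper limit of `K_X . C n / (g n - 1)`. -/
noncomputable def Lambda {k : Type} [Field k] (X : Surface k) : EReal :=
  ⨆ (C : ℕ → Curve X) (_ : ∀ n, 1 < (C n).genus)
    (_ : Tendsto (fun n => (C n).genus) atTop atTop),
    limsup (fun n => (((C n).canonicalDegree / ((C n).genus - 1) : ℝ) : EReal)) atTop

theorem Curve.degree_eq {k : Type} [Field k] {X : Surface k} (C : Curve X) :
    C.degree = pht k C.x := rfl

/-- lower bounds -/
theorem le_Lambda {k : Type} [Field k] (X : Surface k) (a : ℝ)
    (h : ∀ g₀ : ℝ, ∃ C : Curve X, g₀ ≤ C.genus ∧ a * (C.genus - 1) ≤ C.canonicalDegree) :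
    (a : EReal) ≤ Lambda X := by
  choose C hC using fun n : ℕ => h (n + 2)
  have h1 : ∀ n, 1 < (C n).genus := fun n => by
    have := (hC n).1
    have h2 : (0 : ℝ) ≤ n := Nat.cast_nonneg n
    linarith
  have h2 : Tendsto (fun n => (C n).genus) atTop atTop := by
    refine tendsto_atTop_mono (fun n => ?_) tendsto_natCast_atTop_atTop
    have := (hC n).1
    linarith
  have h3 : (a : EReal) ≤
      limsup (fun n => (((C n).canonicalDegree / ((C n).genus - 1) : ℝ) : EReal)) atTop := by
    refine le_trans ?_ (liminf_le_limsup)
    refine le_liminf_of_le (h := Eventually.of_forall fun n => ?_)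
    have h4 := h1 n
    rw [EReal.coe_le_coe_iff, le_div_iff₀ (by linarith)]
    exact (hC n).2
  unfold Lambda
  exact le_iSup_of_le C (le_iSup_of_le h1 (le_iSup_of_le h2 h3))

/-- upper bounds -/
theorem Lambda_le {k : Type} [Field k] (X : Surface k) (a : ℝ)
    (h : ∀ C : Curve X, C.canonicalDegree ≤ a * (C.genus - 1)) :
    Lambda X ≤ (a : EReal) := by
  unfold Lambda
  refine iSup_le fun C => iSup_le fun h1 => iSup_le fun _ => ?_
  refine limsup_le_of_le (h := Eventually.of_forall fun n => ?_)
  have h4 := h1 n
  rw [EReal.coe_le_coe_iff, div_le_iff₀ (by linarith)]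
  exact h (C n)

end Pool.Agent.H431.FS
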