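import Pool.Agent.H431.FS.Om

/-! Existence of the towers. -/

set_option autoImplicit false

open Polynomial FF Pool.Agent.W603.LV

namespace Pool.Agent.H431.FS

variable {k : Type} [Field k]

theorem isFF_of_fg {E : IntermediateField k (Om k)} (hE : E.FG) {z : E}
    (hz : Transcendental k z) : IsFF k E := by
  constructor
  · exact IntermediateField.essFiniteType_iff.2 hE
  · apply le_antisymm
    · rw [← trdeg_Om k]
      exact trdeg_le_of_injective E.val E.val.injective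
    · have h1 : AlgebraicIndependent k (fun _ : Unit => z) := by
        rw [algebraicIndependent_unique_type_iff]; exact hz
      have := h1.cardinalMk_le_trdeg
      simpa using this

theorem adjoin_top (S : Set (Om k)) :
    IntermediateField.adjoin k {f : IntermediateField.adjoin k S | (f : Om k) ∈ S} = ⊤ := by
  set E := IntermediateField.adjoin k S with hE
  apply IntermediateField.map_injective E.val
  rw [IntermediateField.adjoin_map, ← AlgHom.fieldRange_eq_map, IntermediateField.fieldRange_val]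
  have : E.val '' {f : E | (f : Om k) ∈ S} = S := by
    ext x
    constructor
    · rintro ⟨f, hf, rfl⟩
      exact hf
    · intro hx
      exact ⟨⟨x, IntermediateField.subset_adjoin k S hx⟩, hx, rfl⟩
  rw [this]

/-- **Existence of the towers.** -/
theorem exists_tw [CharZero k] [IsAlgClosed k] {m : ℕ} (hm : 0 < m) (J : ℕ) :
    ∃ (L : Type) (_ : Field L) (_ : Algebra k L) (_ : IsFF k L) (κ : ℕ → L) (y0 y1 y2 : L),
      Tw k m J κ y0 y1 y2 ∧ IntermediateField.adjoin k {y0, y1, y2} = ⊤ := by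
  classical
  have hO : CharZero (Om k) := charZero_of_injective_algebraMap (algebraMap k (Om k)).injective
  -- the tower
  have hs : ∀ x : Om k, ∃ z : Om k, z ^ 2 = 4 * x / (1 + x) ^ 2 := fun x =>
    IsAlgClosed.exists_pow_nat_eq _ (by norm_num)
  choose f hf using hs
  let κ : ℕ → Om k := fun j => Nat.rec (k0 k) (fun _ x => f x) j
  have hκ0 : κ 0 = k0 k := rfl
  have hκs : ∀ j, κ (j + 1) ^ 2 = 4 * κ j / (1 + κ j) ^ 2 := fun j => hf (κ j)
  have htr : ∀ j, Transcendental k (κ j) := by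
    intro j
    induction j with
    | zero => exact k0_tr k
    | succ j ih =>
      refine step_tr ?_ ih
      rw [hκs, div_mul_cancel₀ _ (pow_ne_zero _ (ne_of_tr ih).2.1)]
  have hne : ∀ j, κ j ≠ 0 ∧ 1 + κ j ≠ 0 ∧ 1 - κ j ≠ 0 := fun j => ne_of_tr (htr j)
  have hstep : ∀ j, κ (j + 1) ^ 2 * (1 + κ j) ^ 2 = 4 * κ j := fun j => by
    rw [hκs, div_mul_cancel₀ _ (pow_ne_zero _ (hne j).2.1)]
  obtain ⟨y0, hy0⟩ := IsAlgClosed.exists_pow_nat_eq (κ (J + 1) ^ 2) hm
  obtain ⟨y1, hy1⟩ := IsAlgClosed.exists_pow_nat_eq ((1 - κ J) ^ 2 * κ 0 ^ 2 / (1 + κ J) ^ 2) hm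
  obtain ⟨y2, hy2⟩ := IsAlgClosed.exists_pow_nat_eq
    ((1 - κ J) ^ 2 * (1 - κ 0 ^ 2) / (1 + κ J) ^ 2) hm
  set E := IntermediateField.adjoin k ({y0, y1, y2} : Set (Om k)) with hE
  have m0 : y0 ∈ E := IntermediateField.subset_adjoin _ _ (by simp)
  have m1 : y1 ∈ E := IntermediateField.subset_adjoin _ _ (by simp)
  have m2 : y2 ∈ E := IntermediateField.subset_adjoin _ _ (by simp)
  have mJ : κ (J + 1) ^ 2 ∈ E := by rw [← hy0]; exact pow_mem m0 m
  have m3 : κ 0 ^ 2 ∈ E := by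
    have h1 : 1 - κ (J + 1) ^ 2 = (1 - κ J) ^ 2 / (1 + κ J) ^ 2 := by
      rw [hκs]
      have := (hne J).2.1
      field_simp
      ring
    have h2 : κ 0 ^ 2 = y1 ^ m / (1 - κ (J + 1) ^ 2) := by
      rw [h1, hy1]
      have := (hne J).2.1
      have := (hne J).2.2
      field_simp
    rw [h2]
    exact div_mem (pow_mem m1 m) (sub_mem (one_mem _) mJ)
  have hmem : ∀ j ≤ J, κ j ∈ E := mem_of_ends (κ := κ) (J := J) hκ0 (fun j _ => hstep j) m3 mJ
  let κ' : ℕ → E := fun j => ⟨κ (min j J), hmem _ (min_le_right _ _)⟩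
  have hκ' : ∀ j ≤ J, (κ' j : Om k) = κ j := fun j hj => by
    change κ (min j J) = κ j
    rw [min_eq_left hj]
  have htr' : Transcendental k (κ' 0) := by
    rw [← transcendental_algebraMap_iff (A := Om k) (algebraMap E (Om k)).injective]
    change Transcendental k (κ' 0 : Om k)
    rw [hκ' 0 (Nat.zero_le J)]
    exact htr 0
  have hFG : E.FG := by
    rw [hE]
    exact ⟨{y0, y1, y2}, by simp⟩
  refine ⟨E, inferInstance, inferInstance, isFF_of_fg hFG htr', κ', ⟨y0, m0⟩, ⟨y1, m1⟩, ⟨y2, m2⟩,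
    ⟨htr', ?_, ?_, ?_, ?_⟩, ?_⟩
  · intro j hj
    apply Subtype.ext
    change (κ' (j + 1) : Om k) ^ 2 * (1 + (κ' j : Om k)) ^ 2 = 4 * (κ' j : Om k)
    rw [hκ' j hj.le, hκ' (j + 1) hj]
    exact hstep j
  · apply Subtype.ext
    change y0 ^ m * (1 + (κ' J : Om k)) ^ 2 = 4 * (κ' J : Om k)
    rw [hκ' J le_rfl, hy0]
    exact hstep J
  · apply Subtype.ext
    change y1 ^ m * (1 + (κ' J : Om k)) ^ 2 = (1 - (κ' J : Om k)) ^ 2 * (κ' 0 : Om k) ^ 2
    rw [hκ' J le_rfl, hκ' 0 (Nat.zero_le J), hy1, div_mul_cancel₀ _ (pow_ne_zero _ (hne J).2.1)]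
  · apply Subtype.ext
    change y2 ^ m * (1 + (κ' J : Om k)) ^ 2 = (1 - (κ' J : Om k)) ^ 2 * (1 - (κ' 0 : Om k) ^ 2)
    rw [hκ' J le_rfl, hκ' 0 (Nat.zero_le J), hy2, div_mul_cancel₀ _ (pow_ne_zero _ (hne J).2.1)]
  · have h1 := adjoin_top ({y0, y1, y2} : Set (Om k))
    rw [← hE] at h1
    rw [← h1]
    congr 1
    ext x
    simp only [Set.mem_insert_iff, Set.mem_singleton_iff, Subtype.ext_iff, Set.mem_ofPred_eq]

end Pool.Agent.H431.FS
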