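import Pool.Agent.H431.FS.Defs
import Pool.Agent.H431.FS.Field

/-! Curves on Fermat surfaces and on generic surfaces. -/

set_option autoImplicit false

open MvPolynomial FF Filter Pool.Agent.W603.LV Pool.Agent.W603.PV

namespace Pool.Agent.H431.FS

section fermat
variable (k : Type) [Field k] [CharZero k]

/-- The Fermat surface `x₀ ^ m + x₁ ^ m + x₂ ^ m = x₃ ^ m`. -/
noncomputable def fermat (m : ℕ) (hm : 0 < m) : Surface k where
  d := m
  F := X 0 ^ m + X 1 ^ m + X 2 ^ m - X 3 ^ m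
  hom := by
    have h : ∀ i : Fin 4, (X i ^ m : MvPolynomial (Fin 4) k).IsHomogeneous m := fun i => by
      simpa using (isHomogeneous_X k i).pow m
    exact (((h 0).add (h 1)).add (h 2)).sub (h 3)
  smooth := by
    intro p hp _
    obtain ⟨i, hi⟩ := Function.ne_iff.1 hp
    have hi : p i ≠ 0 := hi
    have hm0 : (m : k) ≠ 0 := by exact_mod_cast hm.ne'
    refine ⟨i, ?_⟩
    have key : eval p (pderiv i (X 0 ^ m + X 1 ^ m + X 2 ^ m - X 3 ^ m : MvPolynomial (Fin 4) k)) =
        (if i = 3 then -1 else 1) * ((m : k) * p i ^ (m - 1)) := by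
      fin_cases i <;> simp [pderiv_X]
    rw [key]
    refine mul_ne_zero ?_ (mul_ne_zero hm0 (pow_ne_zero _ hi))
    split_ifs <;> norm_num

end fermat

section
variable {k : Type} [Field k] [CharZero k] [IsAlgClosed k]

omit [CharZero k] [IsAlgClosed k] in
theorem pord_four {L : Type} [Field L] [Algebra k L] (P : Place k L) {y0 y1 y2 : L} (h0 : y0 ≠ 0)
    (h1 : y1 ≠ 0) (h2 : y2 ≠ 0) : pord P ![y0, y1, y2, 1] =
      - max (max (-P.ord y0) (-P.ord y1)) (max (-P.ord y2) 0) := by
  have hne : ∃ j, (![y0, y1, y2, 1] : Fin 4 → L) j ≠ 0 := ⟨0, h0⟩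
  have l0 : pord P ![y0, y1, y2, 1] ≤ P.ord y0 := pord_le P (j := (0 : Fin 4)) h0
  have l1 : pord P ![y0, y1, y2, 1] ≤ P.ord y1 := pord_le P (j := (1 : Fin 4)) h1
  have l2 : pord P ![y0, y1, y2, 1] ≤ P.ord y2 := pord_le P (j := (2 : Fin 4)) h2
  have l3 : pord P ![y0, y1, y2, 1] ≤ 0 := by
    have := pord_le P (f := ![y0, y1, y2, 1]) (j := (3 : Fin 4)) one_ne_zero
    have h : P.ord ((![y0, y1, y2, 1] : Fin 4 → L) 3) = 0 := P.ord_one
    rwa [h] at this
  obtain ⟨j, -, hj⟩ := exists_pord P hne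
  have hj' : P.ord y0 = pord P ![y0, y1, y2, 1] ∨ P.ord y1 = pord P ![y0, y1, y2, 1] ∨
      P.ord y2 = pord P ![y0, y1, y2, 1] ∨ 0 = pord P ![y0, y1, y2, 1] := by
    fin_cases j
    · exact Or.inl hj
    · exact Or.inr (Or.inl hj)
    · exact Or.inr (Or.inr (Or.inl hj))
    · refine Or.inr (Or.inr (Or.inr ?_))
      rw [← hj]
      exact P.ord_one.symm
  generalize pord P ![y0, y1, y2, 1] = z at *
  omega

/-- **Curves of large genus and large canonical degree on the Fermat surfaces.** -/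
theorem exists_curve {m : ℕ} (hm : 5 ≤ m) (g₀ : ℝ) :
    ∃ C : Curve (fermat k m (by omega)), g₀ ≤ C.genus ∧
      4 * (m - 4) / m * (C.genus - 1) ≤ C.canonicalDegree := by
  obtain ⟨J, hJ, hJg⟩ : ∃ J : ℕ, 3 ≤ J ∧ g₀ ≤ 2 ^ J / 2 + 1 := by
    obtain ⟨n, hn⟩ := pow_unbounded_of_one_lt (2 * g₀) (by norm_num : (1 : ℝ) < 2)
    refine ⟨n + 3, by omega, ?_⟩
    have : (2 : ℝ) ^ n ≤ 2 ^ (n + 3) := pow_le_pow_right₀ (by norm_num) (by omega)
    linarith
  obtain ⟨L, iF, iA, iFF, κ, y0, y1, y2, T, hgen⟩ := exists_tw (k := k) (m := m) (by omega) J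
  obtain ⟨n0, n1, n2⟩ := T.yne (by omega : 0 < m)
  have hLc : CharZero L := charZero_of_injective_algebraMap (algebraMap k L).injective
  have hgen2 : IntermediateField.adjoin k (gens J κ y0 y1 y2) = ⊤ := by
    rw [eq_top_iff, ← hgen]
    exact IntermediateField.adjoin.mono _ _ _ (Set.subset_union_right)
  obtain ⟨c1, c2⟩ := T.can hm hJ hgen2
  have c3 := T.large (by omega : 1 ≤ J)
  have c4 := T.deg (by omega : 0 < m)
  have hon : y0 ^ m + y1 ^ m + y2 ^ m - 1 = 0 := by
    have h := (T.ne (le_refl J)).2.1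
    have h2 : (y0 ^ m + y1 ^ m + y2 ^ m - 1) * (1 + κ J) ^ 2 = 0 := by
      linear_combination T.h0 + T.h1 + T.h2
    exact (mul_eq_zero.1 h2).resolve_right (pow_ne_zero _ h)
  let C : Curve (fermat k m (by omega)) :=
    { L := L
      x := ![y0, y1, y2, 1]
      ne_zero := fun h => n0 (congrFun h 0)
      on_surface := by
        simp only [fermat, map_add, map_sub, map_pow, aeval_X]
        simpa using hon
      gen := by
        rw [eq_top_iff, ← hgen, IntermediateField.adjoin_le_iff]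
        have h3 : (![y0, y1, y2, 1] : Fin 4 → L) 3 ≠ 0 := one_ne_zero
        rintro f (rfl | rfl | rfl)
        · exact IntermediateField.subset_adjoin _ _ ⟨0, 3, h3, (div_one _).symm⟩
        · exact IntermediateField.subset_adjoin _ _ ⟨1, 3, h3, (div_one _).symm⟩
        · exact IntermediateField.subset_adjoin _ _ ⟨2, 3, h3, (div_one _).symm⟩ }
  have hdeg : (m : ℤ) * C.degree = 4 * hgt k (κ 0) := by
    rw [← c4, Curve.degree_eq]
    congr 1
    change pht k (![y0, y1, y2, 1] : Fin 4 → L) = _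
    unfold pht
    rw [← finsum_neg_distrib]
    exact finsum_congr fun P => by rw [pord_four P n0 n1 n2, neg_neg]
  have hm0 : (0 : ℝ) < m := by
    have : 0 < m := by omega
    exact_mod_cast this
  have hm5 : (5 : ℝ) ≤ m := by exact_mod_cast hm
  have hdegR : (m : ℝ) * (C.degree : ℝ) = 4 * (hgt k (κ 0) : ℝ) := by exact_mod_cast hdeg
  have c1R : ((canDeg k L : ℤ) : ℝ) ≤ 2 * (hgt k (κ 0) : ℝ) := by exact_mod_cast c1
  have c2R : 6 * (hgt k (κ 0) : ℝ) ≤ 5 * ((canDeg k L : ℤ) : ℝ) := by exact_mod_cast c2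
  have c3R : (2 : ℝ) ^ J ≤ (hgt k (κ 0) : ℝ) := by exact_mod_cast c3
  have hg : C.genus = (canDeg k L : ℝ) / 2 + 1 := rfl
  have hK : C.canonicalDegree = ((m : ℝ) - 4) * C.degree := rfl
  refine ⟨C, ?_, ?_⟩
  · rw [hg]
    linarith
  · rw [hg, hK, div_mul_eq_mul_div, div_le_iff₀ hm0]
    have h5 : ((m : ℝ) - 4) * C.degree * m = ((m : ℝ) - 4) * (4 * (hgt k (κ 0) : ℝ)) := by
      rw [← hdegR]; ring
    rw [h5]
    have h6 : (0 : ℝ) ≤ (m : ℝ) - 4 := by linarith
    have h7 := mul_le_mul_of_nonneg_left c1R h6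
    nlinarith

end

/-- The form `G` of degree `d` is generic over the subfield `k₀`: the ratios of its coefficients to one of
them, which is not zero, are algebraically independent over `k₀`. -/
def Generic (k₀ : Type) {k : Type} [Field k₀] [Field k] [Algebra k₀ k] (X : Surface k) : Prop :=
  ∃ α₀ : {α : Fin 4 →₀ ℕ // α.degree = X.d}, X.F.coeff α₀ ≠ 0 ∧
    AlgebraicIndependent k₀ fun α : {α : {α : Fin 4 →₀ ℕ // α.degree = X.d} // α ≠ α₀} =>
      X.F.coeff α.1.1 / X.F.coeff α₀.1

section generic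
variable {k₀ k : Type} [Field k₀] [Field k] [Algebra k₀ k] [CharZero k] [IsAlgClosed k]

/-- The curves on generic surfaces (a theorem of Xu and Clemens in the form proved in the library). -/
theorem generic_curve {X : Surface k} (hX : Generic k₀ X) (C : Curve X) :
    ((X.d : ℤ) - 5) * C.degree ≤ canDeg k C.L := by
  classical
  obtain ⟨α₀, hα₀, hind⟩ := hX
  have hfin : Finite {α : Fin 4 →₀ ℕ // α.degree = X.d} := by
    have : ({α : Fin 4 →₀ ℕ | α.degree = X.d} : Set (Fin 4 →₀ ℕ)).Finite := by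
      refine (Finset.finite_toSet (Finset.finsuppAntidiag Finset.univ X.d)).subset ?_
      intro α hα
      rw [Finset.mem_coe, Finset.mem_finsuppAntidiag]
      refine ⟨?_, Finset.subset_univ _⟩
      have h1 : α.degree = X.d := hα
      rw [← h1, Finsupp.degree_eq_sum]
    exact this.to_subtype
  have := Fintype.ofFinite {α : Fin 4 →₀ ℕ // α.degree = X.d}
  obtain ⟨c0, hc0⟩ := Function.ne_iff.1 C.ne_zero
  have hc0 : C.x c0 ≠ 0 := hc0
  have hx : ∃ i j, C.x j ≠ 0 ∧ C.x i / C.x j ∉ Set.range (algebraMap k C.L) := by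
    by_contra hcon
    push Not at hcon
    have h1 : IntermediateField.adjoin k {f : C.L | ∃ i j, C.x j ≠ 0 ∧ f = C.x i / C.x j} ≤ ⊥ := by
      rw [IntermediateField.adjoin_le_iff]
      rintro f ⟨i, j, hj, rfl⟩
      exact hcon i j hj
    rw [C.gen] at h1
    obtain ⟨t, ht⟩ := IsFF.exists_transcendental (k := k) (K := C.L)
    have h2 : t ∈ (⊥ : IntermediateField k C.L) := h1 trivial
    obtain ⟨c, rfl⟩ := h2
    exact ht (isAlgebraic_algebraMap c)
  have key := Pool.Agent.TH145.GE.curve_lin (k0 := k₀) (k := k) (L := C.L) (n := 3) (m := 3)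
    (A := Unit) (dg := fun _ => X.d) (∅ : Set (MvPolynomial (Fin (3 + 1)) k₀))
    (by simp) (Pool.Agent.TH145.GC.dimLE_univ k₀ 3)
    (J := fun _ => {α : Fin 4 →₀ ℕ // α.degree = X.d})
    (fun _ α => monomial α.1 1) (fun _ α => by
      apply isHomogeneous_monomial
      exact α.2)
    (fun _ α => X.F.coeff α.1) (fun _ => α₀) (fun _ => hα₀)
    (by
      have e : (fun p : Σ _ : Unit, {j : {α : Fin 4 →₀ ℕ // α.degree = X.d} // j ≠ α₀} =>
          X.F.coeff p.2.1.1 / X.F.coeff α₀.1) =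
          (fun α : {α : {α : Fin 4 →₀ ℕ // α.degree = X.d} // α ≠ α₀} =>
            X.F.coeff α.1.1 / X.F.coeff α₀.1) ∘ fun p => p.2 := rfl
      rw [e]
      exact hind.comp _ (fun p q h => by
        obtain ⟨⟨⟩, p⟩ := p
        obtain ⟨⟨⟩, q⟩ := q
        change p = q at h
        rw [h]))
    c0 (by
      intro _ I hI
      obtain ⟨i, e, he, rfl⟩ := hI
      have h5 : (Pool.Agent.TH145.GD.sM c0 X.d i e : Fin 4 →₀ ℕ).degree = X.d := by
        unfold Pool.Agent.TH145.GD.sM
        rw [map_add, Finsupp.degree_single, Finsupp.degree_single]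
        omega
      exact ⟨⟨_, h5⟩, rfl⟩)
    (F := fun _ => X.F)
    (fun _ => by
      ext α
      rw [coeff_sum]
      by_cases hα : α.degree = X.d
      · rw [Finset.sum_eq_single ⟨α, hα⟩]
        · simp [coeff_monomial]
        · intro β _ hβ
          have : β.1 ≠ α := fun h => hβ (Subtype.ext h)
          simp [coeff_monomial, this]
        · intro h; exact absurd (Finset.mem_univ _) h
      · have h1 : coeff α X.F = 0 := by
          by_contra hcon
          apply hα
          have := X.hom hcon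
          rw [← this]
          simp [Finsupp.weight_apply, Finsupp.degree_eq_sum, Finsupp.sum_fintype]
        rw [h1]
        symm
        refine Finset.sum_eq_zero fun β _ => ?_
        have : β.1 ≠ α := fun h => hα (h ▸ β.2)
        simp [coeff_monomial, this])
    Finset.univ C.x hc0 hx (by simp) (fun _ _ => C.on_surface)
    (fun a ha => absurd (Finset.mem_univ a) ha)
  have h2 : {Q : Place k C.L | ∃ a : Unit, a ∉ (Finset.univ : Finset Unit) ∧
      (X.d : ℤ) * pord Q C.x < Q.ord (aeval C.x X.F)} = ∅ := by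
    ext Q
    simp
  rw [h2, Set.ncard_empty, Nat.cast_zero, add_zero] at key
  simp only [Finset.univ_unique, Finset.sum_singleton, Finset.card_singleton] at key
  rw [Curve.degree_eq]
  have e : ((X.d : ℤ) + (1 : ℕ) - 2 * (3 : ℕ)) = (X.d : ℤ) - 5 := by push_cast; ring
  rw [← e]
  exact key

theorem degree_nonneg {X : Surface k} (C : Curve X) : 0 ≤ C.degree := by
  obtain ⟨c0, hc0⟩ := Function.ne_iff.1 C.ne_zero
  have hc0 : C.x c0 ≠ 0 := hc0
  rw [Curve.degree_eq]
  exact (hgt_nonneg _).trans (Pool.Agent.W603.CX.hgt_le_pht (k := k) C.x hc0 hc0)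

/-- Upper bound for the canonical degree on generic surfaces. -/
theorem generic_canonicalDegree {X : Surface k} (hX : Generic k₀ X) (hd : 6 ≤ X.d) (C : Curve X) :
    C.canonicalDegree ≤ 2 * (X.d - 4) / (X.d - 5) * (C.genus - 1) := by
  have h1 := generic_curve hX C
  have h2 : ((X.d : ℝ) - 5) * (C.degree : ℝ) ≤ (canDeg k C.L : ℝ) := by exact_mod_cast h1
  have hd' : (6 : ℝ) ≤ X.d := by exact_mod_cast hd
  have hg : C.genus = (canDeg k C.L : ℝ) / 2 + 1 := rfl
  have hK : C.canonicalDegree = ((X.d : ℝ) - 4) * C.degree := rfl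
  rw [hg, hK, div_mul_eq_mul_div, le_div_iff₀ (by linarith)]
  have h3 : (0 : ℝ) ≤ (X.d : ℝ) - 4 := by linarith
  nlinarith [mul_le_mul_of_nonneg_left h2 h3]

end generic

end Pool.Agent.H431.FS
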