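import Pool.Agent.H431.FS.Can

/-! The algebraic closure of `k(t)`, Landen towers in it and the function fields of the points of the Fermat
surface. -/

set_option autoImplicit false

open Polynomial FF Pool.Agent.W603.LV

namespace Pool.Agent.H431.FS

section big
variable (k : Type) [Field k]

/-- the algebraic closure of `k(t)` -/
abbrev Om : Type := AlgebraicClosure (RatFunc k)

/-- the variable -/
noncomputable def k0 : Om k := algebraMap (RatFunc k) (Om k) RatFunc.X

theorem k0_tr : Transcendental k (k0 k) :=
  (transcendental_algebraMap_iff (algebraMap (RatFunc k) (Om k)).injective).2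
    RatFunc.transcendental_X

theorem trdeg_Om : Algebra.trdeg k (Om k) = 1 := by
  have h0 : Algebra.IsAlgebraic k[X] (RatFunc k) :=
    (IsFractionRing.comap_isAlgebraic_iff (A := k[X]) (K := RatFunc k) (C := RatFunc k)).2
      inferInstance
  have h1 : Algebra.trdeg k[X] (RatFunc k) = 0 := trdeg_eq_zero
  have h2 := trdeg_add_eq k k[X] (A := RatFunc k)
  have h3 := trdeg_add_eq k (RatFunc k) (A := Om k)
  have h4 : Algebra.trdeg (RatFunc k) (Om k) = 0 := trdeg_eq_zero
  rw [← h3, ← h2, h1, h4, Polynomial.trdeg_of_isDomain]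
  simp

variable {k}

theorem alg_over {E : IntermediateField k (Om k)} {z : Om k} (hz : Transcendental k z)
    (hzE : z ∈ E) : Algebra.IsAlgebraic E (Om k) := by
  have h1 : AlgebraicIndependent k (fun _ : Unit => z) := by
    rw [algebraicIndependent_unique_type_iff]; exact hz
  have h2 : IsTranscendenceBasis k (fun _ : Unit => z) := by
    refine h1.isTranscendenceBasis_of_lift_trdeg_le_of_finite ?_
    rw [trdeg_Om]; simp
  have h3 := h2.isAlgebraic_field
  have h4 : IntermediateField.adjoin k (Set.range fun _ : Unit => z) ≤ E := by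
    rw [IntermediateField.adjoin_le_iff]
    rintro _ ⟨_, rfl⟩
    exact hzE
  let _ : Algebra (IntermediateField.adjoin k (Set.range fun _ : Unit => z)) E :=
    (IntermediateField.inclusion h4).toRingHom.toAlgebra
  have h5 : IsScalarTower (IntermediateField.adjoin k (Set.range fun _ : Unit => z)) E (Om k) :=
    IsScalarTower.of_algebraMap_eq fun _ => rfl
  exact Algebra.IsAlgebraic.tower_top
    (K := (IntermediateField.adjoin k (Set.range fun _ : Unit => z))) E

/-- a valuation at `t = 0` -/
theorem exists_val0 : ∃ B : ValuationSubring (Om k), B.valuation (k0 k) < 1 := by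
  let A : Subalgebra k (Om k) := Algebra.adjoin k {k0 k}
  let x : A.toSubring := ⟨k0 k, Algebra.subset_adjoin rfl⟩
  have hI : Ideal.span {x} ≠ ⊤ := by
    intro h
    rw [Ideal.eq_top_iff_one, Ideal.mem_span_singleton] at h
    obtain ⟨⟨y, hy⟩, h⟩ := h
    have h' : (1 : Om k) = k0 k * y := congrArg Subtype.val h
    have hy' : y ∈ Algebra.adjoin k {k0 k} := hy
    rw [Algebra.adjoin_singleton_eq_range_aeval] at hy'
    obtain ⟨p, rfl⟩ := hy'
    have h2 : aeval (k0 k) (X * p - 1 : k[X]) = 0 := by
      rw [map_sub, map_mul, aeval_X, map_one, h']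
      change k0 k * aeval (k0 k) p - k0 k * aeval (k0 k) p = 0
      ring
    have h3 := (transcendental_iff.1 (k0_tr k)) _ h2
    have h4 := congrArg (eval 0) h3
    simp at h4
  obtain ⟨B, hB, hB2⟩ := Ideal.image_subset_nonunits_valuationSubring _ hI
  refine ⟨B, ?_⟩
  rw [← ValuationSubring.mem_nonunits_iff]
  exact hB2 ⟨x, Ideal.subset_span rfl, rfl⟩

section chain
variable {κ : ℕ → Om k} {J : ℕ}

theorem val_chain (B : ValuationSubring (Om k)) (κ : ℕ → Om k)
    (h : ∀ j < J, κ (j + 1) ^ 2 * (1 + κ j) ^ 2 = 4 * κ j) (h0 : B.valuation (κ 0) < 1) :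
    ∀ j ≤ J, B.valuation (κ j) < 1 := by
  intro j
  induction j with
  | zero => intro _; exact h0
  | succ j ih =>
    intro hj
    have h1 := ih (by omega)
    have h2 := congrArg B.valuation (h j (by omega))
    rw [map_mul, map_mul, map_pow, map_pow, Valuation.map_one_add_of_lt _ h1, one_pow, mul_one]
      at h2
    have h3 : B.valuation 4 ≤ 1 := by
      rw [ValuationSubring.valuation_le_one_iff]
      exact (4 : B).2
    have h4 : B.valuation (κ (j + 1)) ^ 2 < 1 := by
      rw [h2]
      exact lt_of_le_of_lt (mul_le_of_le_one_left' h3) h1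
    by_contra hcon
    push Not at hcon
    exact absurd (one_le_pow_of_one_le' hcon 2) (not_le.2 h4)

theorem fixed_step (B : ValuationSubring (Om k)) {x x' l : Om k}
    (hx : l * (1 + x) ^ 2 = 4 * x) (hx' : l * (1 + x') ^ 2 = 4 * x')
    (h : B.valuation x < 1) (h' : B.valuation x' < 1) (h4 : (4 : Om k) ≠ 0) : x = x' := by
  have h1 : (4 : Om k) * ((x - x') * (1 - x * x')) = 0 := by
    linear_combination (1 + x) ^ 2 * hx' - (1 + x') ^ 2 * hx
  have h2 := (mul_eq_zero.1 h1).resolve_left h4
  rcases mul_eq_zero.1 h2 with h3 | h3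
  · exact sub_eq_zero.1 h3
  · exfalso
    have h5 : x * x' = 1 := by linear_combination -h3
    have h6 := congrArg B.valuation h5
    rw [map_mul, map_one] at h6
    have : B.valuation x * B.valuation x' < 1 := mul_lt_one_of_lt_of_le h h'.le
    exact absurd h6 this.ne

variable [CharZero k]

/-- The field generated by the two ends of the tower contains the tower. -/
theorem mem_of_ends (hk : κ 0 = k0 k) (h : ∀ j < J + 1, κ (j + 1) ^ 2 * (1 + κ j) ^ 2 = 4 * κ j)
    {E : IntermediateField k (Om k)} (h0 : κ 0 ^ 2 ∈ E) (hJ : κ (J + 1) ^ 2 ∈ E) :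
    ∀ j ≤ J, κ j ∈ E := by
  have hO : CharZero (Om k) := charZero_of_injective_algebraMap (algebraMap k (Om k)).injective
  have hEc : CharZero E := charZero_of_injective_algebraMap (algebraMap k E).injective
  have halg := alg_over (E := E) (z := κ 0 ^ 2) (by
    rw [hk]
    exact (k0_tr k).pow (by norm_num)) h0
  have hcl : IsAlgClosure E (Om k) := ⟨inferInstance, halg⟩
  obtain ⟨B, hB⟩ := exists_val0 (k := k)
  have key : ∀ σ : Gal(Om k/E), ∀ i ≤ J, σ (κ (J - i)) = κ (J - i) := by
    intro σ
    have hc : ∀ j < J + 1, (σ (κ (j + 1))) ^ 2 * (1 + σ (κ j)) ^ 2 = 4 * σ (κ j) := by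
      intro j hj
      have := congrArg σ (h j hj)
      rwa [map_mul, map_mul, map_pow, map_pow, map_add, map_one, map_ofNat] at this
    have v1 := val_chain (J := J + 1) B κ h (by rw [hk]; exact hB)
    have e0 : σ (κ 0) ^ 2 = κ 0 ^ 2 := by
      rw [← map_pow]
      exact AlgEquiv.commutes σ (⟨_, h0⟩ : E)
    have v2 := val_chain (J := J + 1) B (fun j => σ (κ j)) hc (by
      have h1 : B.valuation (σ (κ 0)) ^ 2 < 1 := by
        rw [← map_pow, e0, map_pow]
        exact pow_lt_one' (by rw [hk]; exact hB) (by norm_num)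
      by_contra hcon
      push Not at hcon
      exact absurd (one_le_pow_of_one_le' hcon 2) (not_le.2 h1))
    have step : ∀ j < J + 1, σ (κ (j + 1) ^ 2) = κ (j + 1) ^ 2 → σ (κ j) = κ j := by
      intro j hj hs
      refine (fixed_step B (h j hj) ?_ (v1 j hj.le) (v2 j hj.le) (by norm_num)).symm
      have := hc j hj
      rwa [← map_pow, hs] at this
    intro i
    induction i with
    | zero =>
      intro _
      exact step J (by omega) (AlgEquiv.commutes σ (⟨_, hJ⟩ : E))
    | succ i ih =>
      intro hi
      have h1 := ih (by omega)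
      apply step (J - (i + 1)) (by omega)
      rw [show J - (i + 1) + 1 = J - i by omega, map_pow, h1]
  intro j hj
  have h1 : κ j ∈ (⊥ : IntermediateField E (Om k)) := by
    rw [InfiniteGalois.mem_bot_iff_fixed]
    intro σ
    have := key σ (J - j) (by omega)
    rwa [show J - (J - j) = j by omega] at this
  rw [IntermediateField.mem_bot] at h1
  obtain ⟨z, hz⟩ := h1
  rw [← hz]
  exact z.2

end chain

end big

end Pool.Agent.H431.FS
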