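import Pool.Graph.R_seed8.W603.LV.Hgt

/-! Places at which all elements of a function field are approximated by polynomials in one function
`t`: extensions by inverses and roots of units; such places are not ramified over the `t`-line. -/

set_option autoImplicit false

open Polynomial FF Pool.Agent.W603.LV

namespace Pool.Agent.H431.FS

variable {k K : Type*} [Field k] [Field K] [Algebra k K]

/-- `f` is approximated to any order at `P` by polynomials in `t` -/
def Ap (P : Place k K) (t f : K) : Prop := ∀ n : ℕ, ∃ p : k[X], Ge P n (f - aeval t p)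

variable {P : Place k K} {t : K}

theorem Ap.const (c : k) : Ap P t (algebraMap k K c) := fun n => ⟨C c, by simpa using Ge.zero⟩

theorem Ap.self : Ap P t t := fun n => ⟨X, by simpa using Ge.zero⟩

theorem Ap.one : Ap P t 1 := by
  have := Ap.const (P := P) (t := t) (1 : k)
  rwa [map_one] at this

theorem Ap.add {f g : K} (hf : Ap P t f) (hg : Ap P t g) : Ap P t (f + g) := by
  intro n
  obtain ⟨p, hp⟩ := hf n
  obtain ⟨q, hq⟩ := hg n
  refine ⟨p + q, ?_⟩
  have e : f + g - aeval t (p + q) = (f - aeval t p) + (g - aeval t q) := by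
    rw [map_add]; ring
  rw [e]
  exact hp.add hq

theorem Ap.reg (ht : Ge P 0 t) {f : K} (hf : Ap P t f) : Ge P 0 f := by
  obtain ⟨p, hp⟩ := hf 0
  have e : f = (f - aeval t p) + aeval t p := by ring
  rw [e]
  exact (by simpa using hp : Ge P 0 _).add (ge_aeval P ht p)

theorem Ap.mul (ht : Ge P 0 t) {f g : K} (hf : Ap P t f) (hg : Ap P t g) : Ap P t (f * g) := by
  intro n
  obtain ⟨p, hp⟩ := hf n
  obtain ⟨q, hq⟩ := hg n
  refine ⟨p * q, ?_⟩
  have e : f * g - aeval t (p * q) = (f - aeval t p) * g + aeval t p * (g - aeval t q) := by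
    rw [map_mul]; ring
  rw [e]
  refine Ge.add ?_ ?_
  · simpa using hp.mul (hg.reg ht)
  · simpa using (ge_aeval P ht p).mul hq

theorem Ap.neg (ht : Ge P 0 t) {f : K} (hf : Ap P t f) : Ap P t (-f) := by
  have := (Ap.const (P := P) (t := t) (-1 : k)).mul ht hf
  rw [map_neg, map_one] at this
  simpa using this

theorem Ap.sub (ht : Ge P 0 t) {f g : K} (hf : Ap P t f) (hg : Ap P t g) : Ap P t (f - g) := by
  rw [sub_eq_add_neg]; exact hf.add (hg.neg ht)

theorem Ap.pow (ht : Ge P 0 t) {f : K} (hf : Ap P t f) (n : ℕ) : Ap P t (f ^ n) := by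
  induction n with
  | zero => rw [pow_zero]; exact Ap.one
  | succ n ih => rw [pow_succ]; exact ih.mul ht hf

theorem Ap.sum {ι : Type*} (s : Finset ι) (F : ι → K) (h : ∀ i ∈ s, Ap P t (F i)) :
    Ap P t (∑ i ∈ s, F i) := by
  classical
  induction s using Finset.induction_on with
  | empty =>
    rw [Finset.sum_empty]
    have := Ap.const (P := P) (t := t) (0 : k)
    rwa [map_zero] at this
  | insert a s ha ih =>
    rw [Finset.sum_insert ha]
    exact (h a (Finset.mem_insert_self a s)).add (ih fun i hi => h i (Finset.mem_insert_of_mem hi))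

/-- the set of these functions is closed -/
theorem Ap.closed {f : K} (h : ∀ n : ℕ, ∃ g, Ap P t g ∧ Ge P n (f - g)) : Ap P t f := by
  intro n
  obtain ⟨g, hg, hfg⟩ := h n
  obtain ⟨p, hp⟩ := hg n
  refine ⟨p, ?_⟩
  have e : f - aeval t p = (f - g) + (g - aeval t p) := by ring
  rw [e]
  exact hfg.add hp

section
variable [IsAlgClosed k] [CharZero k] [IsFF k K]

/-- the value of a unit -/
theorem exists_val {f : K} (hf0 : f ≠ 0) (hf : P.ord f = 0) :
    ∃ c : k, c ≠ 0 ∧ Ge P 1 (f - algebraMap k K c) := by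
  obtain ⟨c, hc⟩ := exists_const P (f := f) (Or.inr hf.ge)
  refine ⟨c, ?_, hc⟩
  rintro rfl
  rw [map_zero, sub_zero] at hc
  have := hc.resolve_left hf0
  omega

theorem Ap.inv (ht : Ge P 0 t) {f : K} (hf0 : f ≠ 0) (hf : P.ord f = 0) (h : Ap P t f) :
    Ap P t f⁻¹ := by
  obtain ⟨c, hc0, hc⟩ := exists_val hf0 hf
  have hcK : algebraMap k K c ≠ 0 := by rw [Ne, map_eq_zero]; exact hc0
  set u : K := 1 - f * algebraMap k K c⁻¹ with hu
  have hu1 : Ge P 1 u := by
    have e : u = (f - algebraMap k K c) * algebraMap k K (-c⁻¹) := by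
      rw [hu, map_neg, map_inv₀]; field_simp; ring
    rw [e]
    simpa using hc.mul (Ge.const (P := P) (-c⁻¹))
  have huA : Ap P t u := Ap.one.sub ht (h.mul ht (Ap.const _))
  apply Ap.closed
  intro n
  refine ⟨algebraMap k K c⁻¹ * ∑ i ∈ Finset.range n, u ^ i,
    (Ap.const _).mul ht (Ap.sum _ _ fun i _ => huA.pow ht i), ?_⟩
  have e : f⁻¹ - algebraMap k K c⁻¹ * ∑ i ∈ Finset.range n, u ^ i = f⁻¹ * u ^ n := by
    have h1 := mul_neg_geom_sum u n
    have h2 : 1 - u = f * algebraMap k K c⁻¹ := by rw [hu]; ring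
    rw [h2] at h1
    have h3 : u ^ n = 1 - f * algebraMap k K c⁻¹ * ∑ i ∈ Finset.range n, u ^ i := by rw [h1]; ring
    rw [h3]
    field_simp
  rw [e]
  have h4 : Ge P 0 f⁻¹ := Or.inr (by rw [P.ord_inv]; omega)
  simpa using h4.mul (hu1.pow n)

omit [IsAlgClosed k] [CharZero k] [IsFF k K] in
theorem ge_pow_sub {f g : K} (hf : Ge P 0 f) (hg : Ge P 0 g) (h : Ge P 1 (f - g)) (n : ℕ) :
    Ge P 1 (f ^ n - g ^ n) := by
  induction n with
  | zero => simpa using Ge.zero
  | succ n ih =>
    have e : f ^ (n + 1) - g ^ (n + 1) = (f ^ n - g ^ n) * f + g ^ n * (f - g) := by ring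
    rw [e]
    refine Ge.add ?_ ?_
    · simpa using ih.mul hf
    · simpa using (hg.pow n).mul h

theorem Ap.root (ht : Ge P 0 t) {f : K} (hf0 : f ≠ 0) (hf : P.ord f = 0) {r : ℕ} (hr : 0 < r)
    (h : Ap P t (f ^ r)) : Ap P t f := by
  obtain ⟨c, hc0, hc⟩ := exists_val hf0 hf
  have hcK : algebraMap k K c ≠ 0 := by rw [Ne, map_eq_zero]; exact hc0
  have hfr : Ge P 0 f := Or.inr hf.ge
  have key : ∀ n : ℕ, ∃ g, Ap P t g ∧ Ge P (n + 1 : ℕ) (f - g) := by
    intro n
    induction n with
    | zero => exact ⟨_, Ap.const c, by simpa using hc⟩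
    | succ n ih =>
      obtain ⟨g, hg, hfg⟩ := ih
      set w : k := (r : k) * c ^ (r - 1) with hw
      have hw0 : w ≠ 0 := mul_ne_zero (by exact_mod_cast hr.ne') (pow_ne_zero _ hc0)
      have hwK : algebraMap k K w ≠ 0 := by rw [Ne, map_eq_zero]; exact hw0
      refine ⟨g + (f ^ r - g ^ r) * algebraMap k K w⁻¹,
        hg.add ((h.sub ht (hg.pow ht r)).mul ht (Ap.const _)), ?_⟩
      set S : K := ∑ i ∈ Finset.range r, f ^ i * g ^ (r - 1 - i) with hS
      have h1 : S * (f - g) = f ^ r - g ^ r := (Commute.all f g).geom_sum₂_mul r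
      have e : f - (g + (f ^ r - g ^ r) * algebraMap k K w⁻¹) =
          (f - g) * ((algebraMap k K w - S) * algebraMap k K w⁻¹) := by
        rw [← h1, map_inv₀]
        field_simp
        ring
      rw [e]
      have hgr : Ge P 0 g := hg.reg ht
      have hgc : Ge P 1 (g - algebraMap k K c) := by
        have e1 : g - algebraMap k K c = (f - algebraMap k K c) - (f - g) := by ring
        rw [e1]
        exact hc.sub (hfg.mono (by push_cast; omega))
      have h2 : Ge P 1 (algebraMap k K w - S) := by
        have e2 : algebraMap k K w - S = - ∑ i ∈ Finset.range r, (f ^ i * g ^ (r - 1 - i) -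
            algebraMap k K c ^ i * algebraMap k K c ^ (r - 1 - i)) := by
          rw [Finset.sum_sub_distrib, ← hS]
          have : ∑ i ∈ Finset.range r, algebraMap k K c ^ i * algebraMap k K c ^ (r - 1 - i) =
              algebraMap k K w := by
            rw [Finset.sum_congr rfl fun i hi => by
              rw [← pow_add, show i + (r - 1 - i) = r - 1 from by
                have := Finset.mem_range.1 hi; omega]]
            rw [Finset.sum_const, Finset.card_range, hw, map_mul, map_pow, map_natCast,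
              nsmul_eq_mul]
          rw [this]; ring
        rw [e2]
        refine (Ge.sum _ _ fun i _ => ?_).neg
        have e3 : f ^ i * g ^ (r - 1 - i) - algebraMap k K c ^ i * algebraMap k K c ^ (r - 1 - i) =
            (f ^ i - algebraMap k K c ^ i) * g ^ (r - 1 - i) +
              algebraMap k K c ^ i * (g ^ (r - 1 - i) - algebraMap k K c ^ (r - 1 - i)) := by ring
        rw [e3]
        refine Ge.add ?_ ?_
        · simpa using (ge_pow_sub hfr (Ge.const c) hc i).mul (hgr.pow (r - 1 - i))
        · simpa using ((Ge.const (P := P) c).pow i).mul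
            (ge_pow_sub hgr (Ge.const c) hgc (r - 1 - i))
      have h3 := hfg.mul (h2.mul (Ge.const w⁻¹))
      exact h3.mono (by push_cast; omega)
  apply Ap.closed
  intro n
  obtain ⟨g, hg, hfg⟩ := key n
  exact ⟨g, hg, hfg.mono (by push_cast; omega)⟩

omit [IsAlgClosed k] [CharZero k] [IsFF k K] in
/-- the orders of approximated functions are multiples of the ramification index -/
theorem Ap.dvd {c : k} (hc : 0 < P.ord (t - algebraMap k K c)) {f : K} (hf : f ≠ 0)
    (ht : Ge P 0 t) (h : Ap P t f) : P.ord (t - algebraMap k K c) ∣ P.ord f := by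
  have h0 : 0 ≤ P.ord f := (h.reg ht).resolve_left hf
  obtain ⟨p, hp⟩ := h ((P.ord f).toNat + 1)
  have h2 : aeval t p ≠ 0 := by
    intro h3
    rw [h3, sub_zero] at hp
    have := hp.resolve_left hf
    push_cast at this
    omega
  have h3 : P.ord (aeval t p) = P.ord f := by
    by_cases h4 : f - aeval t p = 0
    · rw [sub_eq_zero.1 h4]
    · have h5 := hp.resolve_left h4
      push_cast at h5
      have h6 := P.ord_add_eq (f := f) (g := -(f - aeval t p)) hf
        (neg_ne_zero.2 h4) (by rw [P.ord_neg]; omega)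
      rw [← h6.2]
      congr 1
      ring
  rw [← h3]
  exact dvd_ord_aeval P hc _ h2

omit [IsAlgClosed k] [CharZero k] [IsFF k K] in
/-- places at which generators of the function field are approximated are not ramified -/
theorem unram {c : k} (hc : 0 < P.ord (t - algebraMap k K c)) (S : Set K)
    (hS : IntermediateField.adjoin k S = ⊤) (h : ∀ s ∈ S, Ap P t s) :
    P.ord (t - algebraMap k K c) = 1 := by
  have ht : Ge P 0 t := by
    have h1 : t = (t - algebraMap k K c) + algebraMap k K c := by ring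
    rw [h1]
    exact Ge.add (Or.inr hc.le) (Ge.const c)
  have hA : ∀ f ∈ Algebra.adjoin k S, Ap P t f := by
    intro f hf
    induction hf using Algebra.adjoin_induction with
    | mem x hx => exact h x hx
    | algebraMap r => exact Ap.const r
    | add x y _ _ hx hy => exact hx.add hy
    | mul x y _ _ hx hy => exact hx.mul ht hy
  have hall : ∀ f : K, f ≠ 0 → P.ord (t - algebraMap k K c) ∣ P.ord f := by
    intro f hf
    have hf1 : f ∈ IntermediateField.adjoin k S := by rw [hS]; trivial
    rw [IntermediateField.mem_adjoin_iff_div] at hf1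
    obtain ⟨a, ha, b, hb, rfl⟩ := hf1
    have ha0 : a ≠ 0 := fun h0 => hf (by rw [h0, zero_div])
    have hb0 : b ≠ 0 := fun h0 => hf (by rw [h0, div_zero])
    rw [P.ord_div ha0 hb0]
    exact dvd_sub ((hA a ha).dvd hc ha0 ht) ((hA b hb).dvd hc hb0 ht)
  obtain ⟨s, hs0, hs⟩ := P.surj
  have := hall s hs0
  rw [hs] at this
  exact Int.eq_one_of_dvd_one hc.le this

end

end Pool.Agent.H431.FS
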